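import Pool.Agent.N623.CS.Stm

/-!
# CS/OPEN: the open case
-/

set_option autoImplicit false

namespace Pool.Agent.N853.CS

open Pool.Agent.N623.CS

/-- rigid surjections do not increase -/
theorem rs_le (f : RS) (m : ℕ) : f m ≤ m := by
  induction m using Nat.strong_induction_on with
  | _ m ih =>
    by_contra hcon
    push Not at hcon
    obtain ⟨i, hi, hi2⟩ := f.2.1 m m hcon
    have h1 := ih i hi
    have h2 : f i = m := hi2
    omega

/-- the set `O` contains all extensions -/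
def acc (O : Set RS) (p : ℕ) (A : RS) : Prop := ∀ g ∈ K p, g * A ∈ O

/-- no extension is accepting -/
def rej (O : Set RS) (p : ℕ) (A : RS) : Prop := ∀ h ∈ K p, ¬ acc O p (h * A)

theorem acc_mul {O : Set RS} {p : ℕ} {A h : RS} (hh : h ∈ K p) (hA : acc O p A) :
    acc O p (h * A) := by
  intro g hg
  rw [← mul_assoc]
  exact hA _ (K_mul hg hh)

theorem rej_mul {O : Set RS} {p : ℕ} {A h : RS} (hh : h ∈ K p) (hA : rej O p A) :
    rej O p (h * A) := by
  intro g hg
  rw [← mul_assoc]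
  exact hA _ (K_mul hg hh)

theorem not_acc {O : Set RS} {p : ℕ} {A : RS} (hA : rej O p A) : ¬ acc O p A := by
  have := hA 1 (one_mem_K p)
  rwa [one_mul] at this

theorem rej_or (O : Set RS) (p : ℕ) (A : RS) : (∃ h ∈ K p, acc O p (h * A)) ∨ rej O p A := by
  by_cases h : ∃ h ∈ K p, acc O p (h * A)
  · exact Or.inl h
  · right
    intro g hg hacc
    exact h ⟨g, hg, hacc⟩

/-- the position of a node -/
theorem node_pos {d p : ℕ} {g : RS} (hg : g ∈ K d) (hdp : d ≤ p) {m : ℕ} (hm : g m = p) :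
    d ≤ m := by
  by_contra hcon
  push Not at hcon
  have := hg m hcon
  omega

theorem node_mem {p : ℕ} {g v : RS} (hg : g ∈ K p) (hv : IsNode p g v) : v ∈ K p := by
  obtain ⟨m, h1, h2, h3, h4⟩ := hv
  intro j hj
  have h5 := node_pos hg le_rfl h1
  rw [h4 j (by omega), hg j hj]

/-- factorization through a node -/
theorem node_fac (hF : S_FAC) {p : ℕ} {g v : RS} (hv : IsNode p g v) :
    ∃ g' ∈ K (p + 1), g = g' * v := by
  obtain ⟨m, h1, h2, h3, h4⟩ := hv
  exact hF (m + 1) (p + 1) v h3 g (fun j hj => (h4 j (by omega)).symm)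

theorem node_unique {p : ℕ} {g v v' : RS} (hv : IsNode p g v) (hv' : IsNode p g v') : v = v' := by
  obtain ⟨m, h1, h2, h3, h4⟩ := hv
  obtain ⟨m', h1', h2', h3', h4'⟩ := hv'
  have hmm : m = m' := by
    rcases lt_trichotomy m m' with h | h | h
    · exact absurd h1 (h2' m h)
    · exact h
    · exact absurd h1' (h2 m' h)
  subst hmm
  apply RS.ext
  intro n
  rcases Nat.lt_or_ge n (m + 1) with h | h
  · rw [h4 n (by omega), h4' n (by omega)]
  · obtain ⟨i, rfl⟩ := Nat.exists_eq_add_of_le h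
    rw [h3.2 i, h3'.2 i]

/-- composition of nodes -/
theorem node_comp {p : ℕ} {g' v1 v : RS} (hg' : g' ∈ K (p + 1)) {m1 : ℕ}
    (hv1 : v1 ∈ Sw (m1 + 1) (p + 1)) (hv : IsNode (p + 1) g' v) :
    IsNode (p + 1) (g' * v1) (v * v1) := by
  have hvK := node_mem hg' hv
  obtain ⟨m', h1, h2, h3, h4⟩ := hv
  have hm' : p + 1 ≤ m' := node_pos hg' le_rfl h1
  obtain ⟨i0, rfl⟩ := Nat.exists_eq_add_of_le hm'
  refine ⟨m1 + 1 + i0, ?_, ?_, ⟨?_, ?_⟩, ?_⟩
  · rw [RS.mul_apply, hv1.2 i0, h1]
  · intro j hj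
    rw [RS.mul_apply]
    rcases Nat.lt_or_ge j (m1 + 1) with h | h
    · have h5 := hv1.1 j h
      rw [hg' _ h5]
      omega
    · obtain ⟨i, rfl⟩ := Nat.exists_eq_add_of_le h
      rw [hv1.2 i]
      exact h2 _ (by omega)
  · intro j hj
    rw [RS.mul_apply]
    rcases Nat.lt_or_ge j (m1 + 1) with h | h
    · have h5 := hv1.1 j h
      rw [hvK _ h5]
      omega
    · obtain ⟨i, rfl⟩ := Nat.exists_eq_add_of_le h
      rw [hv1.2 i]
      exact h3.1 _ (by omega)
  · intro i
    rw [RS.mul_apply]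
    have e : m1 + 1 + i0 + 1 + i = m1 + 1 + (i0 + 1 + i) := by ring
    rw [e, hv1.2]
    have e2 : p + 1 + (i0 + 1 + i) = p + 1 + i0 + 1 + i := by ring
    rw [e2, h3.2 i]
  · intro j hj
    rw [RS.mul_apply, RS.mul_apply]
    rcases Nat.lt_or_ge j (m1 + 1) with h | h
    · have h5 := hv1.1 j h
      rw [hvK _ h5, hg' _ h5]
    · obtain ⟨i, rfl⟩ := Nat.exists_eq_add_of_le h
      rw [hv1.2 i]
      exact h4 _ (by omega)

theorem one_mem_Sw (d : ℕ) : (1 : RS) ∈ Sw d d := ⟨fun _ hj => hj, fun _ => rfl⟩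

/-- the second property -/
def P2 (O : Set RS) (p : ℕ) (A : RS) : Prop :=
  acc O p A ∨ ∀ g ∈ K p, ∀ v, IsNode p g v → rej O (p + 1) (v * A)

theorem P2_mul (hF : S_FAC) (hN : S_NODE) {O : Set RS} {p : ℕ} {A h : RS} (hh : h ∈ K p)
    (hA : P2 O p A) : P2 O p (h * A) := by
  rcases hA with hA | hA
  · exact Or.inl (acc_mul hh hA)
  · right
    intro g hg v hv
    have hvK := node_mem hg hv
    obtain ⟨v'', hv''⟩ := hN (v * h) p
    obtain ⟨g3, hg3, he⟩ := node_fac hF hv''
    have h1 := hA (v * h) (K_mul hvK hh) v'' hv''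
    rw [← mul_assoc, he, mul_assoc]
    exact rej_mul hg3 h1

theorem P2_dense (hF : S_FAC) (hN : S_NODE) (hFus : S_FUS) (hPi : S_PIGEON) (O : Set RS) (p : ℕ)
    (A : RS) : ∃ h ∈ K p, P2 O p (h * A) := by
  obtain ⟨h0, hh0, h0d⟩ := hFus (fun _ p A => acc O p A ∨ rej O p A)
    (by
      intro _ p A
      rcases rej_or O p A with ⟨h, hh, ha⟩ | hr
      · exact ⟨h, hh, Or.inl ha⟩
      · exact ⟨1, one_mem_K p, Or.inr (by rw [one_mul]; exact hr)⟩)
    (by
      intro _ p A h hh hA
      rcases hA with hA | hA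
      · exact Or.inl (acc_mul hh hA)
      · exact Or.inr (rej_mul hh hA)) p A
  have hdec : ∀ q, p ≤ q → ∀ p', ∀ w ∈ Sw q p', acc O p' (w * (h0 * A)) ∨ rej O p' (w * (h0 * A)) := by
    intro q hq p' w hw
    have := h0d q hq p' w hw
    rwa [mul_assoc] at this
  rcases rej_or O p (h0 * A) with ⟨h, hh, ha⟩ | hr
  · exact ⟨h * h0, K_mul hh hh0, Or.inl (by rw [mul_assoc]; exact ha)⟩
  · obtain ⟨h, hh, hP⟩ := hPi p {v | acc O (p + 1) (v * (h0 * A))}
    rcases hP with hP | hP
    · exfalso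
      apply hr h hh
      intro g hg
      obtain ⟨v, hv⟩ := hN (g * h) p
      obtain ⟨g', hg', he⟩ := node_fac hF hv
      have h1 : acc O (p + 1) (v * (h0 * A)) := hP g hg v hv
      rw [← mul_assoc, he, mul_assoc]
      exact h1 g' hg'
    · refine ⟨h * h0, K_mul hh hh0, Or.inr ?_⟩
      intro g hg v hv
      have hvK := node_mem hg hv
      obtain ⟨v'', hv''⟩ := hN (v * h) p
      obtain ⟨g3, hg3, he⟩ := node_fac hF hv''
      have h1 : ¬ acc O (p + 1) (v'' * (h0 * A)) := hP v hvK v'' hv''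
      have h2 : rej O (p + 1) (v'' * (h0 * A)) := by
        obtain ⟨m, e1, e2, e3, e4⟩ := hv''
        have h5 := node_pos (K_mul hvK hh) le_rfl e1
        exact (hdec (m + 1) (by omega) (p + 1) v'' e3).resolve_left h1
      have e : v * (h * h0 * A) = g3 * (v'' * (h0 * A)) := by
        rw [← mul_assoc g3, ← he]
        simp only [mul_assoc]
      rw [e]
      exact rej_mul hg3 h2

theorem t_open : S_CUT → S_FAC → S_NODE → S_FUS → S_PIGEON → S_OPEN := by
  intro _ hF hN hFus hPi d O hO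
  obtain ⟨h, hh, hP2⟩ := hFus (fun _ p A => P2 O p A)
    (fun _ p A => P2_dense hF hN hFus hPi O p A)
    (fun _ p A h hh hA => P2_mul hF hN hh hA) d 1
  have hP2' : ∀ q, d ≤ q → ∀ p, ∀ w ∈ Sw q p, P2 O p (w * h) := by
    intro q hq p w hw
    have := hP2 q hq p w hw
    rwa [mul_one] at this
  refine ⟨h, hh, ?_⟩
  by_cases hacc : acc O d h
  · exact Or.inl hacc
  · right
    -- all nodes are rejecting
    have hbase : ∀ g ∈ K d, ∀ v, IsNode d g v → rej O (d + 1) (v * h) := by
      have h1 := hP2' d le_rfl d 1 (one_mem_Sw d)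
      rw [one_mul] at h1
      exact h1.resolve_left hacc
    have hind : ∀ p, d ≤ p → ∀ g ∈ K d, ∀ v, IsNode p g v → rej O (p + 1) (v * h) := by
      intro p hp
      induction p, hp using Nat.le_induction with
      | base => exact hbase
      | succ p hp ih =>
        intro g hg v2 hv2
        obtain ⟨v1, hv1⟩ := hN g p
        have hr1 := ih g hg v1 hv1
        obtain ⟨g', hg', he⟩ := node_fac hF hv1
        obtain ⟨v, hv⟩ := hN g' (p + 1)
        obtain ⟨m1, e1, e2, e3, e4⟩ := hv1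
        have hm1 := node_pos hg hp e1
        have h2 := (hP2' (m1 + 1) (by omega) (p + 1) v1 e3).resolve_left (not_acc hr1)
        have h3 := h2 g' hg' v hv
        have h4 := node_comp hg' e3 hv
        rw [← he] at h4
        rw [node_unique hv2 h4, mul_assoc]
        exact h3
    intro g hg hgO
    obtain ⟨q, hq⟩ := hO _ hgO
    obtain ⟨v, hv⟩ := hN g (max d q)
    have hrej := hind (max d q) (le_max_left _ _) g hg v hv
    apply not_acc hrej
    intro g1 hg1
    apply hq
    intro j hj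
    obtain ⟨m, e1, e2, e3, e4⟩ := hv
    have h1 : max d q ≤ m := by
      have := rs_le g m
      omega
    have h2 : h j ≤ j := rs_le h j
    have h3 : q ≤ max d q := le_max_right _ _
    have h4 : g (h j) ≤ h j := rs_le g (h j)
    rw [RS.mul_apply, RS.mul_apply, RS.mul_apply, e4 (h j) (by omega)]
    exact hg1 _ (by omega)

end Pool.Agent.N853.CS
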